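import Mathlib

/-!
# MP_dd6e79: oscillating growth of finitely presented semigroups

We prove that the answer to Q1 is **no**: there are (explicit) `f₁ = n ^ 3` and a strictly
increasing `f₂` satisfying all the conditions of Q1, such that for every finitely presented
semigroup `S` and every finite generating set `X` of `S`, the growth function of `S` with
respect to `X` is eventually `≥ f₁` or eventually `≤ f₂`.
-/

namespace Pool.Agent.Results.MP_dd6e79_al.NoPair

open Filter Asymptotics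

/-- The set of elements of the semigroup `S` represented by nonempty words of length `≤ n`
over `X`. -/
def ball {S : Type*} [Semigroup S] (X : Set S) (n : ℕ) : Set S :=
  {s | ∃ w : FreeSemigroup X, w.length ≤ n ∧ FreeSemigroup.lift (Subtype.val : X → S) w = s}

/-- The growth function of `S` with respect to `X`. -/
noncomputable def growth {S : Type*} [Semigroup S] (X : Set S) (n : ℕ) : ℕ :=
  (ball X n).ncard

/-- `S` is finitely presented: it is isomorphic to the quotient of the free semigroup on a finite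
set `Fin k` by the congruence generated by finitely many relations `u = v`. -/
def FinitelyPresented (S : Type*) [Semigroup S] : Prop :=
  ∃ (k : ℕ) (R : Finset (FreeSemigroup (Fin k) × FreeSemigroup (Fin k))),
    Nonempty ((conGen (fun u v => (u, v) ∈ R)).Quotient ≃* S)

/-- `f ⪯ g`: there is a constant `C ≥ 1` with `f n ≤ C g (C n)` for all `n`. -/
def Preceq (f g : ℕ → ℕ) : Prop :=
  ∃ C : ℕ, 1 ≤ C ∧ ∀ n, f n ≤ C * g (C * n)

/-- `f ∼ g`: `f ⪯ g` and `g ⪯ f`. -/
def GrowthEquiv (f g : ℕ → ℕ) : Prop := Preceq f g ∧ Preceq g f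

/-- `f` is subexponential: for every real `c > 1`, `f n ≤ c ^ n` for all large `n`. -/
def Subexp (f : ℕ → ℕ) : Prop :=
  ∀ c : ℝ, 1 < c → ∀ᶠ n in atTop, (f n : ℝ) ≤ c ^ n

section growthlemmas

variable {S : Type*} [Semigroup S]

lemma finite_words (α : Type*) [Finite α] (n : ℕ) :
    {w : FreeSemigroup α | w.length ≤ n}.Finite := by
  have h : Set.InjOn (fun w : FreeSemigroup α => w.head :: w.tail)
      {w : FreeSemigroup α | w.length ≤ n} := by
    intro a _ b _ hab
    have h1 := List.cons.inj hab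
    cases a; cases b
    simp only at h1
    obtain ⟨h1, h2⟩ := h1
    subst h1; subst h2; rfl
  refine Set.Finite.of_finite_image ((List.finite_length_le α n).subset ?_) h
  rintro _ ⟨w, hw, rfl⟩
  simpa [FreeSemigroup.length] using hw

lemma finite_ball {X : Set S} (hX : X.Finite) (n : ℕ) : (ball X n).Finite := by
  have : Finite X := hX.to_subtype
  refine ((finite_words X n).image (FreeSemigroup.lift (Subtype.val : X → S))).subset ?_
  rintro s ⟨w, hw, rfl⟩
  exact ⟨w, hw, rfl⟩

lemma ball_mono (X : Set S) {m n : ℕ} (h : m ≤ n) : ball X m ⊆ ball X n := by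
  rintro s ⟨w, hw, rfl⟩
  exact ⟨w, hw.trans h, rfl⟩

lemma ball_zero (X : Set S) : ball X 0 = ∅ := by
  ext s
  constructor
  · rintro ⟨w, hw, -⟩
    simp [FreeSemigroup.length] at hw
  · intro h
    exact absurd h (Set.notMem_empty s)

lemma ball_add (X : Set S) {m : ℕ} (hm : 0 < m) (n : ℕ) :
    ball X (m + n) ⊆ ball X m ∪ Set.image2 (· * ·) (ball X m) (ball X n) := by
  rintro s ⟨w, hw, rfl⟩
  rcases le_or_gt w.length m with h | h
  · exact Or.inl ⟨w, h, rfl⟩
  · right
    obtain ⟨x, t⟩ := w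
    simp only [FreeSemigroup.length] at hw h
    have hdrop : (t.drop (m - 1)) ≠ [] := by
      intro h0
      have := List.drop_eq_nil_iff.mp h0
      omega
    obtain ⟨y, t₂, hyt⟩ := List.exists_cons_of_ne_nil hdrop
    refine ⟨FreeSemigroup.lift Subtype.val ⟨x, t.take (m - 1)⟩, ⟨_, ?_, rfl⟩,
      FreeSemigroup.lift Subtype.val ⟨y, t₂⟩, ⟨_, ?_, rfl⟩, ?_⟩
    · simp only [FreeSemigroup.length, List.length_take]
      omega
    · have h3 := congrArg List.length hyt
      simp only [List.length_drop, List.length_cons] at h3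
      simp only [FreeSemigroup.length]
      omega
    · simp only
      rw [← map_mul]
      congr 1
      have h4 : t = t.take (m - 1) ++ (y :: t₂) := by
        rw [← hyt, List.take_append_drop]
      conv_rhs => rw [h4]
      rfl

lemma growth_zero (X : Set S) : growth X 0 = 0 := by
  rw [growth, ball_zero, Set.ncard_empty]

lemma growth_mono {X : Set S} (hX : X.Finite) : Monotone (growth X) := by
  intro m n h
  exact Set.ncard_le_ncard (ball_mono X h) (finite_ball hX n)

lemma growth_add {X : Set S} (hX : X.Finite) (m n : ℕ) :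
    growth X (m + n) + 1 ≤ (growth X m + 1) * (growth X n + 1) := by
  rcases Nat.eq_zero_or_pos m with rfl | hm
  · rw [growth_zero]; simp
  have hf : (ball X m ∪ Set.image2 (· * ·) (ball X m) (ball X n)).Finite :=
    (finite_ball hX m).union ((finite_ball hX m).image2 _ (finite_ball hX n))
  have h1 : growth X (m + n) ≤ growth X m + growth X m * growth X n := by
    calc growth X (m + n) ≤ (ball X m ∪ Set.image2 (· * ·) (ball X m) (ball X n)).ncard :=
          Set.ncard_le_ncard (ball_add X hm n) hf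
      _ ≤ (ball X m).ncard + (Set.image2 (· * ·) (ball X m) (ball X n)).ncard :=
          Set.ncard_union_le _ _
      _ ≤ growth X m + growth X m * growth X n := by
          refine Nat.add_le_add_left ?_ _
          rw [← Set.image_uncurry_prod]
          refine (Set.ncard_image_le ((finite_ball hX m).prod (finite_ball hX n))).trans ?_
          rw [Set.ncard_prod]
          exact le_rfl
  nlinarith [Nat.zero_le (growth X n)]

end growthlemmas

section dichotomy

/-- Submultiplicativity in the form satisfied by growth functions. -/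
def SubMul (g : ℕ → ℕ) : Prop :=
  ∀ m n, g (m + n) + 1 ≤ (g m + 1) * (g n + 1)

lemma SubMul.pow {g : ℕ → ℕ} (hg : SubMul g) (n₀ q r : ℕ) :
    g (n₀ * q + r) + 1 ≤ (g n₀ + 1) ^ q * (g r + 1) := by
  induction q with
  | zero => simp
  | succ q ih =>
    have h1 := hg n₀ (n₀ * q + r)
    have h2 : n₀ * (q + 1) + r = n₀ + (n₀ * q + r) := by ring
    rw [h2, pow_succ]
    calc g (n₀ + (n₀ * q + r)) + 1 ≤ (g n₀ + 1) * (g (n₀ * q + r) + 1) := h1
      _ ≤ (g n₀ + 1) * ((g n₀ + 1) ^ q * (g r + 1)) := Nat.mul_le_mul_left _ ih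
      _ = _ := by ring

lemma eventually_mul_pow_le {a b : ℝ} (ha : 0 ≤ a) (hab : a < b) (M : ℝ) :
    ∀ᶠ n : ℕ in atTop, M * a ^ n ≤ b ^ n := by
  have h := (isLittleO_pow_pow_of_lt_left ha hab).const_mul_left M
  filter_upwards [h.bound one_pos] with n hn
  rw [one_mul, Real.norm_eq_abs, Real.norm_eq_abs, abs_of_nonneg (pow_nonneg (ha.trans hab.le) n)]
    at hn
  exact (le_abs_self _).trans hn

lemma dichotomy {g : ℕ → ℕ} (hg : SubMul g) :
    (∃ c : ℝ, 1 < c ∧ ∀ n, 1 ≤ n → c ^ n ≤ (g n : ℝ) + 1) ∨ Subexp g := by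
  by_cases h : ∃ c : ℝ, 1 < c ∧ ∀ n, 1 ≤ n → c ^ n ≤ (g n : ℝ) + 1
  · exact Or.inl h
  · right
    push Not at h
    intro c hc
    obtain ⟨c₁, hc1, hc1c⟩ := exists_between hc
    obtain ⟨n₀, hn₀, hlt⟩ := h c₁ hc1
    -- bound on the initial values
    set M : ℕ := ∑ r ∈ Finset.range n₀, (g r + 1) with hM
    have hMr : ∀ r, r < n₀ → g r + 1 ≤ M := by
      intro r hr
      exact Finset.single_le_sum (f := fun r => g r + 1) (fun _ _ => Nat.zero_le _)
        (Finset.mem_range.mpr hr)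
    filter_upwards [eventually_mul_pow_le (zero_le_one.trans hc1.le) hc1c M] with n hn
    have h1 : g n + 1 ≤ (g n₀ + 1) ^ (n / n₀) * (g (n % n₀) + 1) := by
      have := hg.pow n₀ (n / n₀) (n % n₀)
      rwa [Nat.div_add_mod] at this
    have h2 : ((g n : ℝ) + 1) ≤ ((g n₀ : ℝ) + 1) ^ (n / n₀) * ((g (n % n₀) : ℝ) + 1) := by
      exact_mod_cast h1
    have h3 : ((g (n % n₀) : ℝ) + 1) ≤ (M : ℝ) := by
      exact_mod_cast hMr _ (Nat.mod_lt _ hn₀)
    have hpos : (0:ℝ) ≤ (g n₀ : ℝ) + 1 := by positivity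
    have h4 : ((g n₀ : ℝ) + 1) ^ (n / n₀) ≤ c₁ ^ n := by
      calc ((g n₀ : ℝ) + 1) ^ (n / n₀) ≤ (c₁ ^ n₀) ^ (n / n₀) :=
            pow_le_pow_left₀ hpos hlt.le _
        _ = c₁ ^ (n₀ * (n / n₀)) := (pow_mul _ _ _).symm
        _ ≤ c₁ ^ n := pow_le_pow_right₀ hc1.le (Nat.mul_div_le n n₀)
    have hc1n : (0:ℝ) ≤ c₁ ^ n := pow_nonneg (zero_le_one.trans hc1.le) n
    calc (g n : ℝ) ≤ (g n : ℝ) + 1 := by linarith
      _ ≤ ((g n₀ : ℝ) + 1) ^ (n / n₀) * ((g (n % n₀) : ℝ) + 1) := h2
      _ ≤ c₁ ^ n * M := by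
          apply mul_le_mul h4 h3 (by positivity) hc1n
      _ = M * c₁ ^ n := mul_comm _ _
      _ ≤ c ^ n := hn

lemma Subexp.le_of_exp {f g : ℕ → ℕ} (hf : Subexp f) {c : ℝ} (hc : 1 < c)
    (hg : ∀ n, 1 ≤ n → c ^ n ≤ (g n : ℝ) + 1) : ∀ᶠ n in atTop, f n ≤ g n := by
  obtain ⟨c₁, hc1, hc1c⟩ := exists_between hc
  filter_upwards [eventually_mul_pow_le (zero_le_one.trans hc1.le) hc1c 2, hf c₁ hc1,
    eventually_ge_atTop 1] with n h1 h2 h3
  have h4 : (1:ℝ) ≤ c₁ ^ n := one_le_pow₀ hc1.le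
  have h5 := hg n h3
  have h6 : (f n : ℝ) ≤ g n := by linarith
  exact_mod_cast h6

end dichotomy

section diagonal

/-- A countable family of subexponential functions is dominated by a subexponential one. -/
lemma exists_dominating (G : ℕ → ℕ → ℕ) (hG : ∀ i, Subexp (G i)) :
    ∃ H : ℕ → ℕ, Subexp H ∧ ∀ i, ∀ᶠ n in atTop, G i n ≤ H n := by
  classical
  let U : ℕ → ℕ → ℝ := fun j n => (1 + 1 / ((j : ℝ) + 1)) ^ n
  let P : ℕ → ℕ → Prop := fun n k => ∀ i ≤ k, ∀ j ≤ k, ∀ m, n ≤ m → (G i m : ℝ) ≤ U j m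
  let κ : ℕ → ℕ := fun n => Nat.findGreatest (P n) n
  have hev : ∀ K : ℕ, ∀ᶠ n in atTop, P n K := by
    intro K
    have h1 : ∀ᶠ n in atTop, ∀ i ∈ Finset.range (K + 1), ∀ j ∈ Finset.range (K + 1),
        (G i n : ℝ) ≤ U j n := by
      rw [Finset.eventually_all]
      intro i _
      rw [Finset.eventually_all]
      intro j _
      refine hG i _ ?_
      have : (0:ℝ) < 1 / ((j : ℝ) + 1) := by positivity
      linarith
    obtain ⟨N, hN⟩ := eventually_atTop.mp h1
    filter_upwards [eventually_ge_atTop N] with n hn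
    intro i hi j hj m hm
    exact hN m (hn.trans hm) i (Finset.mem_range.mpr (by omega)) j
      (Finset.mem_range.mpr (by omega))
  have hκ : ∀ K : ℕ, ∀ᶠ n in atTop, K ≤ κ n := by
    intro K
    filter_upwards [hev K, eventually_ge_atTop K] with n h1 h2
    exact Nat.le_findGreatest h2 h1
  refine ⟨fun n => (Finset.range (κ n + 1)).sup (fun i => G i n), ?_, ?_⟩
  · intro c hc
    -- choose j with 1 + 1/(j+1) ≤ c
    obtain ⟨j, hj⟩ : ∃ j : ℕ, 1 + 1 / ((j : ℝ) + 1) < c := by
      obtain ⟨j, hj⟩ := exists_nat_one_div_lt (sub_pos.mpr hc)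
      exact ⟨j, by linarith⟩
    filter_upwards [hκ (max j 1)] with n hn
    have hne : κ n ≠ 0 := by
      have := le_max_right j 1
      omega
    have hP : P n (κ n) := Nat.findGreatest_of_ne_zero (P := P n) rfl hne
    have hjk : j ≤ κ n := (le_max_left j 1).trans hn
    obtain ⟨i, hi, hie⟩ := Finset.exists_mem_eq_sup (Finset.range (κ n + 1))
      ⟨0, Finset.mem_range.mpr (Nat.succ_pos _)⟩ (fun i => G i n)
    rw [hie]
    have h1 := hP i (by have := Finset.mem_range.mp hi; omega) j hjk n le_rfl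
    refine h1.trans ?_
    exact pow_le_pow_left₀ (by positivity) hj.le n
  · intro i
    filter_upwards [hκ i] with n hn
    exact Finset.le_sup (f := fun i => G i n) (Finset.mem_range.mpr (by omega))

/-- A subexponential function is dominated by a strictly increasing subexponential one. -/
lemma exists_strictMono (H : ℕ → ℕ) (hH : Subexp H) :
    ∃ F : ℕ → ℕ, StrictMono F ∧ Subexp F ∧ ∀ n, H n ≤ F n := by
  refine ⟨fun n => n + (Finset.range (n + 1)).sup H, ?_, ?_, ?_⟩
  · intro a b hab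
    have : (Finset.range (a + 1)).sup H ≤ (Finset.range (b + 1)).sup H :=
      Finset.sup_mono (Finset.range_mono (by omega))
    simp only
    omega
  · intro c hc
    obtain ⟨c₁, hc1, hc1c⟩ := exists_between hc
    obtain ⟨c₂, hc2, hc2c⟩ := exists_between hc1c
    obtain ⟨N, hN⟩ := eventually_atTop.mp (hH c₁ hc1)
    set M : ℕ := 1 + (Finset.range (N + 1)).sup H with hM
    have hc1' : (0:ℝ) ≤ c₁ := zero_le_one.trans hc1.le
    have hall : ∀ m, (H m : ℝ) ≤ M * c₁ ^ m := by
      intro m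
      have h1 : (1:ℝ) ≤ c₁ ^ m := one_le_pow₀ hc1.le
      rcases le_or_gt N m with h | h
      · have h2 := hN m h
        have hM1 : (1:ℝ) ≤ (M:ℝ) := by
          rw [hM]; push_cast
          have : (0:ℝ) ≤ (((Finset.range (N + 1)).sup H : ℕ) : ℝ) := Nat.cast_nonneg _
          linarith
        nlinarith
      · have h2 : H m ≤ M := by
          have := Finset.le_sup (f := H) (Finset.mem_range.mpr (show m < N + 1 by omega))
          omega
        have h3 : (H m : ℝ) ≤ M := by exact_mod_cast h2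
        have h4 : (0:ℝ) ≤ M := Nat.cast_nonneg _
        nlinarith
    have hn : ∀ᶠ n : ℕ in atTop, (n : ℝ) ≤ c₂ ^ n := by
      have h := isLittleO_pow_const_const_pow_of_one_lt (R := ℝ) 1 (hc1.trans hc2)
      filter_upwards [h.bound one_pos] with n hn
      rw [one_mul, pow_one, Real.norm_eq_abs, Real.norm_eq_abs,
        abs_of_nonneg (pow_nonneg (hc1'.trans hc2.le) n)] at hn
      exact (le_abs_self _).trans hn
    have hM2 : ∀ᶠ n : ℕ in atTop, (M : ℝ) * c₁ ^ n ≤ c₂ ^ n :=
      eventually_mul_pow_le hc1' hc2 M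
    filter_upwards [hn, hM2, eventually_mul_pow_le (hc1'.trans hc2.le) hc2c 2] with n h1 h2 h3
    obtain ⟨m, hm, hme⟩ := Finset.exists_mem_eq_sup (Finset.range (n + 1))
      ⟨0, Finset.mem_range.mpr (Nat.succ_pos _)⟩ H
    rw [hme]
    push_cast
    have h4 := hall m
    have h5 : (M:ℝ) * c₁ ^ m ≤ M * c₁ ^ n := by
      apply mul_le_mul_of_nonneg_left _ (Nat.cast_nonneg _)
      exact pow_le_pow_right₀ hc1.le (by have := Finset.mem_range.mp hm; omega)
    linarith
  · intro n
    have := Finset.le_sup (f := H) (Finset.mem_range.mpr (show n < n + 1 by omega))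
    show H n ≤ n + (Finset.range (n + 1)).sup H
    omega

lemma Subexp.preceq_two_pow {F : ℕ → ℕ} (hF : Subexp F) : Preceq F (fun n => 2 ^ n) := by
  obtain ⟨N, hN⟩ := eventually_atTop.mp (hF 2 (by norm_num))
  refine ⟨1 + (Finset.range (N + 1)).sup F, by omega, ?_⟩
  intro n
  set M : ℕ := 1 + (Finset.range (N + 1)).sup F with hM
  have h0 : 1 ≤ M := by omega
  rcases le_or_gt N n with h | h
  · have h2 : F n ≤ 2 ^ n := by
      have := hN n h
      exact_mod_cast this
    calc F n ≤ 2 ^ n := h2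
      _ ≤ 2 ^ (M * n) := Nat.pow_le_pow_right (by norm_num) (Nat.le_mul_of_pos_left n h0)
      _ ≤ M * 2 ^ (M * n) := Nat.le_mul_of_pos_left _ h0
  · have h2 : F n ≤ M := by
      have := Finset.le_sup (f := F) (Finset.mem_range.mpr (show n < N + 1 by omega))
      omega
    exact h2.trans (Nat.le_mul_of_pos_right _ (by positivity))

lemma Subexp.not_two_pow_preceq {F : ℕ → ℕ} (hF : Subexp F) : ¬ Preceq (fun n => 2 ^ n) F := by
  rintro ⟨C, hC, h⟩
  -- choose c > 1 with c ^ C < 2
  have hcont : ContinuousAt (fun c : ℝ => c ^ C) 1 := (continuous_pow C).continuousAt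
  have hev : ∀ᶠ c in nhdsWithin (1:ℝ) (Set.Ioi 1), c ^ C < 3 / 2 := by
    have : Tendsto (fun c : ℝ => c ^ C) (nhdsWithin (1:ℝ) (Set.Ioi 1)) (nhds ((1:ℝ) ^ C)) :=
      hcont.tendsto.mono_left nhdsWithin_le_nhds
    rw [one_pow] at this
    exact this.eventually (gt_mem_nhds (by norm_num))
  obtain ⟨c, hcC, hc⟩ := (hev.and self_mem_nhdsWithin).exists
  have hc' : (1:ℝ) < c := hc
  have h1 := hF c hc'
  have h2 : Tendsto (fun n => C * n) atTop atTop :=
    Filter.tendsto_id.const_mul_atTop' (by omega)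
  have h3 := h2.eventually h1
  have h4 := eventually_mul_pow_le (a := 3 / 2) (b := 2) (by norm_num) (by norm_num) (C + 1)
  obtain ⟨n, h5, h6⟩ := (h3.and h4).exists
  have h7 : ((2:ℝ)) ^ n ≤ C * F (C * n) := by exact_mod_cast h n
  have h8 : (F (C * n) : ℝ) ≤ (3 / 2) ^ n := by
    refine h5.trans ?_
    rw [pow_mul]
    exact pow_le_pow_left₀ (by positivity) hcC.le n
  have h9 : (C : ℝ) * F (C * n) ≤ C * (3 / 2) ^ n :=
    mul_le_mul_of_nonneg_left h8 (Nat.cast_nonneg _)
  have h10 : (0:ℝ) < (3 / 2) ^ n := by positivity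
  nlinarith

end diagonal

section codes

lemma ball_hom_image {Q S : Type*} [Semigroup Q] [Semigroup S] (e : Q →ₙ* S) (Y : Set Q)
    (n : ℕ) : e '' ball Y n ⊆ ball (e '' Y) n := by
  rintro _ ⟨_, ⟨w, hw, rfl⟩, rfl⟩
  let φ : Y → (e '' Y : Set S) := fun y => ⟨e y.1, ⟨y.1, y.2, rfl⟩⟩
  refine ⟨FreeSemigroup.map φ w, ?_, ?_⟩
  · rw [FreeSemigroup.length_map]; exact hw
  · have h : (FreeSemigroup.lift (Subtype.val : (e '' Y : Set S) → S)).comp
        (FreeSemigroup.map φ) = e.comp (FreeSemigroup.lift (Subtype.val : Y → Q)) := by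
      apply FreeSemigroup.hom_ext
      funext y
      simp [φ]
    exact DFunLike.congr_fun h w

lemma growth_equiv {Q S : Type*} [Semigroup Q] [Semigroup S] (e : Q ≃* S) (Y : Set Q) :
    growth (e '' Y) = growth Y := by
  funext n
  have h1 : ball (e '' Y) n = e '' ball Y n := by
    apply Set.Subset.antisymm
    · intro s hs
      have h2 : e.symm s ∈ ball (e.symm '' (e '' Y)) n :=
        ball_hom_image (e.symm : S →ₙ* Q) (e '' Y) n ⟨s, hs, rfl⟩
      have h3 : e.symm '' (e '' Y) = Y := by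
        rw [Set.image_image]; simp
      rw [h3] at h2
      exact ⟨e.symm s, h2, e.apply_symm_apply s⟩
    · exact ball_hom_image (e : Q →ₙ* S) Y n
  rw [growth, growth, h1, Set.ncard_image_of_injective _ e.injective]

/-- Codes for a finitely presented semigroup together with a finite subset. -/
abbrev Code : Type := Σ k : ℕ, Finset (FreeSemigroup (Fin k) × FreeSemigroup (Fin k)) ×
  Finset (FreeSemigroup (Fin k))

instance (α : Type*) [Countable α] : Countable (FreeSemigroup α) := by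
  have h : Function.Injective (fun w : FreeSemigroup α => (w.head, w.tail)) := by
    intro a b hab
    cases a; cases b
    simp only [Prod.mk.injEq] at hab
    obtain ⟨h1, h2⟩ := hab
    subst h1; subst h2; rfl
  exact h.countable

/-- The semigroup of a code. -/
abbrev Code.Sg (c : Code) : Type := (conGen (fun u v => (u, v) ∈ c.2.1)).Quotient

/-- The growth function of a code. -/
noncomputable def Code.growth (c : Code) : ℕ → ℕ :=
  NoPair.growth (S := c.Sg) ((fun w : FreeSemigroup (Fin c.1) => (w : c.Sg)) '' (c.2.2 : Set _))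

lemma exists_code {S : Type*} [Semigroup S] (hS : FinitelyPresented S) {X : Set S}
    (hX : X.Finite) : ∃ c : Code, growth X = c.growth := by
  classical
  obtain ⟨k, R, ⟨e⟩⟩ := hS
  -- choose representatives of `e.symm x`
  have hrep : ∀ x : S, ∃ w : FreeSemigroup (Fin k),
      (w : (conGen (fun u v => (u, v) ∈ R)).Quotient) = e.symm x := by
    intro x
    exact Quot.exists_rep (e.symm x)
  choose ρ hρ using hrep
  refine ⟨⟨k, R, hX.toFinset.image ρ⟩, ?_⟩
  rw [Code.growth, ← growth_equiv e]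
  congr 1
  ext x
  simp only [Finset.coe_image, Set.Finite.coe_toFinset, Set.mem_image]
  constructor
  · intro hx
    refine ⟨e.symm x, ⟨ρ x, ⟨x, hx, rfl⟩, hρ x⟩, e.apply_symm_apply x⟩
  · rintro ⟨_, ⟨_, ⟨y, hy, rfl⟩, rfl⟩, rfl⟩
    rw [hρ y, e.apply_symm_apply]
    exact hy

lemma Code.subMul (c : Code) : SubMul c.growth := by
  intro m n
  exact growth_add ((Finset.finite_toSet _).image _) m n

end codes

/-- The universal `f₂`. -/
lemma exists_universal : ∃ f₂ : ℕ → ℕ, StrictMono f₂ ∧ Subexp f₂ ∧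
    ∀ c : Code, (∀ f₁ : ℕ → ℕ, Subexp f₁ → ∀ᶠ n in atTop, f₁ n ≤ c.growth n) ∨
      (∀ᶠ n in atTop, c.growth n ≤ f₂ n) := by
  classical
  have : Nonempty Code := ⟨⟨0, ∅, ∅⟩⟩
  obtain ⟨e, he⟩ := exists_surjective_nat Code
  let G : ℕ → ℕ → ℕ := fun i => if Subexp (e i).growth then (e i).growth else fun _ => 0
  have hG : ∀ i, Subexp (G i) := by
    intro i
    simp only [G]
    split_ifs with h
    · exact h
    · intro c hc
      exact Eventually.of_forall fun n => by
        simpa using pow_nonneg (zero_le_one.trans hc.le) n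
  obtain ⟨H, hH, hGH⟩ := exists_dominating G hG
  obtain ⟨F, hF, hFs, hHF⟩ := exists_strictMono H hH
  refine ⟨F, hF, hFs, ?_⟩
  intro c
  rcases dichotomy c.subMul with ⟨r, hr, h⟩ | h
  · left
    intro f₁ hf₁
    exact hf₁.le_of_exp hr h
  · right
    obtain ⟨i, rfl⟩ := he c
    filter_upwards [hGH i] with n hn
    simp only [G, if_pos h] at hn
    exact hn.trans (hHF n)

lemma main_of_code {f₂ : ℕ → ℕ}
    (hcode : ∀ c : Code, (∀ f₁ : ℕ → ℕ, Subexp f₁ → ∀ᶠ n in atTop, f₁ n ≤ c.growth n) ∨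
      (∀ᶠ n in atTop, c.growth n ≤ f₂ n)) {f₁ : ℕ → ℕ} (hf₁ : Subexp f₁)
    {S : Type*} [Semigroup S] (hS : FinitelyPresented S) {X : Set S} (hX : X.Finite) :
    (∀ᶠ n in atTop, f₁ n ≤ growth X n) ∨ (∀ᶠ n in atTop, growth X n ≤ f₂ n) := by
  obtain ⟨c, hc⟩ := exists_code hS hX
  rw [hc]
  rcases hcode c with h | h
  · exact Or.inl (h f₁ hf₁)
  · exact Or.inr h

lemma subexp_cube : Subexp (fun n => n ^ 3) := by
  intro c hc
  have h := isLittleO_pow_const_const_pow_of_one_lt (R := ℝ) 3 hc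
  filter_upwards [h.bound one_pos] with n hn
  rw [one_mul, Real.norm_eq_abs, Real.norm_eq_abs,
    abs_of_nonneg (pow_nonneg (zero_le_one.trans hc.le) n)] at hn
  push_cast
  exact (le_abs_self _).trans hn

/-- **Negative answer to Q1 of MP_dd6e79.**
(1) There are strictly increasing `f₁, f₂ : ℕ → ℕ` with `n² ⪯ f₁`, `f₂ ⪯ 2ⁿ`, `f₁ ≁ n²`,
`f₂ ≁ 2ⁿ` such that for every finitely presented semigroup `S` and every finite generating set
`X` of `S`, either `f₁ n ≤ growth X n` for all large `n` or `growth X n ≤ f₂ n` for all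
large `n`.
(2) In fact a single `f₂` works for all subexponential `f₁` (in particular for `f₁ = n ^ d` for
all `d ≥ 3`). -/
theorem result :
    (∃ f₁ f₂ : ℕ → ℕ, StrictMono f₁ ∧ StrictMono f₂ ∧
      Preceq (fun n => n ^ 2) f₁ ∧ Preceq f₂ (fun n => 2 ^ n) ∧
      ¬ GrowthEquiv f₁ (fun n => n ^ 2) ∧ ¬ GrowthEquiv f₂ (fun n => 2 ^ n) ∧
      ∀ (S : Type*) [Semigroup S], FinitelyPresented S →
        ∀ X : Set S, X.Finite → Subsemigroup.closure X = ⊤ →
          (∀ᶠ n in atTop, f₁ n ≤ growth X n) ∨ (∀ᶠ n in atTop, growth X n ≤ f₂ n)) ∧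
    (∃ f₂ : ℕ → ℕ, StrictMono f₂ ∧ Preceq f₂ (fun n => 2 ^ n) ∧ ¬ GrowthEquiv f₂ (fun n => 2 ^ n) ∧
      ∀ f₁ : ℕ → ℕ, Subexp f₁ →
        ∀ (S : Type*) [Semigroup S], FinitelyPresented S →
          ∀ X : Set S, X.Finite → Subsemigroup.closure X = ⊤ →
            (∀ᶠ n in atTop, f₁ n ≤ growth X n) ∨ (∀ᶠ n in atTop, growth X n ≤ f₂ n)) := by
  obtain ⟨f₂, hmono, hsub, hcode⟩ := exists_universal
  have hcube := subexp_cube
  refine ⟨⟨fun n => n ^ 3, f₂, ?_, hmono, ?_, hsub.preceq_two_pow, ?_, ?_, ?_⟩,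
    ⟨f₂, hmono, hsub.preceq_two_pow, fun h => hsub.not_two_pow_preceq h.2, ?_⟩⟩
  · exact fun a b hab => Nat.pow_lt_pow_left hab (by norm_num)
  · refine ⟨1, le_rfl, fun n => ?_⟩
    simp only [one_mul]
    rcases Nat.eq_zero_or_pos n with rfl | hn
    · simp
    · exact Nat.pow_le_pow_right hn (by norm_num)
  · rintro ⟨⟨C, hC, h⟩, -⟩
    have h1 := h (C ^ 3 + 1)
    simp only at h1
    have h2 : C * (C * (C ^ 3 + 1)) ^ 2 = C ^ 3 * (C ^ 3 + 1) ^ 2 := by ring
    rw [h2, pow_succ (C ^ 3 + 1) 2, mul_comm] at h1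
    have h3 : 0 < (C ^ 3 + 1) ^ 2 := by positivity
    have h4 := Nat.le_of_mul_le_mul_right h1 h3
    omega
  · exact fun h => hsub.not_two_pow_preceq h.2
  · intro S _ hS X hX _
    exact main_of_code hcode hcube hS hX
  · intro f₁ hf₁ S _ hS X hX _
    exact main_of_code hcode hf₁ hS hX

end Pool.Agent.Results.MP_dd6e79_al.NoPair
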